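import Pool.Agent.Helper23.MC.Goals1
import Pool.Agent.Helper40.CG.CO

/-! # COB (project MC, MP_69be96_nt): the number of rough points is concentrated, also for prime
`n + j` and rough `n + i`, `i` in `B` (adapted from helper40, `Helper40/CG/CO.lean`) -/

set_option autoImplicit false

open Finset Filter Topology

open scoped Classical

namespace Pool.Agent.Helper8.MC

open Pool.Agent.Helper88.PP (pr Rg om Sf SS uu vv ee LA VV QQ cost)
open Pool.Agent.Helper88.RR (gg ab TB WB nz DB VM)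
open Pool.Agent.Helper88.GM (NI XI gB In)
open Pool.Agent.Helper23.MC
open Pool.Agent.Helper40.CG (lab lab_self prod_lab nz_lab rg vv_label_one ff VM_pos SS_pos SS_lt sum_ff)

/-- the second moments -/
theorem key (h : StmtTGA) (A K0 : ℕ) : ∃ c : ℝ, 0 < c ∧ ∃ E0 : ℕ, ∀ E z x y : ℕ, E0 ≤ E →
    SrA A E z x y →
    ∀ b : ℕ, b < QQ x → ∀ P : Finset ℕ, P ⊆ Icc 1 y →
    (P.card : ℝ) * om y z + 1 ≤ (E : ℝ) ^ 2 →
    ∀ j ∈ Icc 1 y, j ∉ P → ∀ G ⊆ P, G.card ≤ K0 + 2 →
    |∑ n ∈ NI (x / 32) x (QQ x) b, ff (E / 32) z y (n + j) ^ 2 * ∏ i ∈ G, rg y z (n + i)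
      - XI (x / 32) x (QQ x) * (gg y z (G.card + 1) / VM (E / 32) z)|
      ≤ Real.exp (-(c * E)) * XI (x / 32) x (QQ x) := by
  obtain ⟨c, hc, E0, hTG⟩ := h A
  obtain ⟨c', hc', hvl⟩ := Pool.Agent.Helper88.RR.vl
  obtain ⟨J, hJ⟩ := exists_nat_ge (2 / c')
  refine ⟨c, hc, max E0 (max (64 * 2 ^ J) ((K0 + 3) ^ 3)), ?_⟩
  intro E z x y hE hSr b hb P hP hPo j hj hjP G hG hG2
  have hE0 : E0 ≤ E := (le_max_left _ _).trans hE
  have hEJ : 64 * 2 ^ J ≤ E := ((le_max_left _ _).trans (le_max_right _ _)).trans hE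
  have hEK : (K0 + 3) ^ 3 ≤ E := ((le_max_right _ _).trans (le_max_right _ _)).trans hE
  have hJ1 : 1 ≤ 2 ^ J := Nat.one_le_two_pow
  have hE64 : 64 ≤ E := by omega
  have hEr : (64 : ℝ) ≤ E := by exact_mod_cast hE64
  have hz2 : 2 ≤ z := by
    have h1 : Real.exp E ≤ z := hSr.1
    have h2 : (E : ℝ) + 1 ≤ Real.exp E := Real.add_one_le_exp _
    have h3 : (2 : ℝ) ≤ z := by linarith only [hEr, h1, h2]
    exact_mod_cast h3
  have hV := VM_pos (M := E / 32) (by omega) hz2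
  have hom1 : om y z ≤ 1 := by
    obtain ⟨_, _, hom⟩ := Pool.Agent.Helper74.PP.om_lower
    exact (hom y z hz2).2
  have hjm : j ∈ insert j P := mem_insert_self _ _
  have hIn : In x (x / 32) x (QQ x) b := ⟨dvd_rfl, hb, by omega⟩
  have hq : 2 ^ J * 1 ≤ E / 16 := by omega
  have hVV : 1 ≤ VV z 1 (2 ^ J * 1) := by
    have h1 := hvl J 1 z le_rfl hz2
    have h2 : 2 ≤ c' * J := by
      rw [div_le_iff₀ hc'] at hJ
      linarith only [hJ]
    linarith only [h1, h2]
  have hP' : insert j P ⊆ Icc 1 y := insert_subset hj hP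
  have hPc : ((insert j P).card : ℝ) * om y z ≤ (E : ℝ) ^ 2 := by
    rw [card_insert_of_notMem hjP]
    push_cast
    linarith only [hPo, hom1]
  have hres := hTG E z x y hE0 hSr (x / 32) x (QQ x) b hIn 1 (2 ^ J) (K0 + 3) le_rfl hq hVV
    hEK (insert j P) hP' hPc ((SS z (z ^ (E / 32))).image (lab j G P))
    (fun r => 1 / (VM (E / 32) z * (Nat.totient (r ⟨j, hjm⟩) : ℝ))) {⟨j, hjm⟩}
    (univ.filter fun i => (i : ℕ) ∈ G) ?_ ?_ ?_ ?_ ?_ ?_ ?_
  · have hinj : Set.InjOn (lab j G P) (SS z (z ^ (E / 32))) := by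
      intro s _ s' _ hss
      have := congrFun hss ⟨j, hjm⟩
      rwa [lab_self, lab_self] at this
    have e1 : ∀ n, ∑ r ∈ (SS z (z ^ (E / 32))).image (lab j G P),
        1 / (VM (E / 32) z * (Nat.totient (r ⟨j, hjm⟩) : ℝ)) *
          ∏ i, vv y z (r i) (n + (i : ℕ)) =
        ff (E / 32) z y (n + j) * ∏ i ∈ G, rg y z (n + i) := by
      intro n
      rw [sum_image hinj, ff, sum_mul]
      refine sum_congr rfl fun s _ => ?_
      rw [lab_self, prod_lab hjP hG s (fun r i => vv y z r (n + i)) (by intro i; simp [vv])]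
      simp only [vv_label_one]
      ring
    have e2 : ∑ r ∈ (SS z (z ^ (E / 32))).image (lab j G P),
        (1 / (VM (E / 32) z * (Nat.totient (r ⟨j, hjm⟩) : ℝ))) ^ 2 *
          (gg y z (nz r) * ∏ i, (if r i = 0 then 1 else (Nat.totient (r i) : ℝ))) =
        gg y z (G.card + 1) / VM (E / 32) z := by
      rw [sum_image hinj]
      have e3 : ∀ s ∈ SS z (z ^ (E / 32)),
          (1 / (VM (E / 32) z * (Nat.totient (lab j G P s ⟨j, hjm⟩) : ℝ))) ^ 2 *
          (gg y z (nz (lab j G P s)) *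
            ∏ i, (if lab j G P s i = 0 then 1 else (Nat.totient (lab j G P s i) : ℝ))) =
          gg y z (G.card + 1) / VM (E / 32) z * (1 / (VM (E / 32) z * (Nat.totient s : ℝ))) := by
        intro s hs
        have hs1 := SS_pos hs
        have hs0 : (0 : ℝ) < Nat.totient s := by exact_mod_cast Nat.totient_pos.2 hs1
        rw [lab_self, nz_lab hjP hG (by omega),
          prod_lab hjP hG s (fun r _ => if r = 0 then 1 else (Nat.totient r : ℝ)) (by simp)]
        rw [if_neg (by omega)]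
        simp only [one_ne_zero, if_false, Nat.totient_one, Nat.cast_one, prod_const_one, mul_one]
        field_simp
      rw [sum_congr rfl e3, ← mul_sum, sum_ff (by omega) hz2, mul_one]
    have e4 : ∀ n, (ff (E / 32) z y (n + j) * ∏ i ∈ G, rg y z (n + i)) ^ 2 =
        ff (E / 32) z y (n + j) ^ 2 * ∏ i ∈ G, rg y z (n + i) := by
      intro n
      rw [mul_pow, ← prod_pow]
      congr 1
      refine prod_congr rfl fun i _ => ?_
      unfold rg
      split_ifs <;> simp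
    simp only [e1, e2, e4] at hres
    exact hres
  · rw [disjoint_singleton_left, mem_filter]
    rintro ⟨-, hjG⟩
    exact hjP (hG hjG)
  · intro r hr i hiF hiG
    obtain ⟨s, hs, rfl⟩ := mem_image.1 hr
    left
    have h1 : (i : ℕ) ≠ j := by
      intro h1
      apply hiF
      rw [mem_singleton]
      exact Subtype.ext h1
    have h2 : (i : ℕ) ∉ G := by
      intro h2
      exact hiG (mem_filter.2 ⟨mem_univ _, h2⟩)
    simp [lab, h1, h2]
  · intro r hr i hi
    obtain ⟨s, hs, rfl⟩ := mem_image.1 hr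
    rw [mem_singleton] at hi
    rw [hi, lab_self]
    exact hs
  · intro r hr i hi
    obtain ⟨s, hs, rfl⟩ := mem_image.1 hr
    have h2 : (i : ℕ) ∈ G := (mem_filter.1 hi).2
    have h1 : (i : ℕ) ≠ j := by
      intro h1
      rw [h1] at h2
      exact hjP (hG h2)
    simp [lab, h1, h2]
  · intro r hr
    obtain ⟨s, hs, rfl⟩ := mem_image.1 hr
    have hs1 := SS_pos hs
    rw [nz_lab hjP hG (by omega)]
    omega
  · intro r hr
    obtain ⟨s, hs, rfl⟩ := mem_image.1 hr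
    have hs1 := SS_pos hs
    have hs2 := SS_lt hs
    rw [prod_lab hjP hG s (fun r _ => max 1 r) (by simp)]
    simp only [max_self, prod_const_one, mul_one]
    rw [max_eq_right hs1]
    exact hs2.le.trans (Nat.pow_le_pow_right (by omega) (by omega))
  · intro r hr
    obtain ⟨s, hs, rfl⟩ := mem_image.1 hr
    have hs1 := SS_pos hs
    rw [abs_of_nonneg (by positivity)]
    rw [prod_eq_single (⟨j, hjm⟩ : ↥(insert j P))]
    · rw [if_pos (mem_singleton_self _)]
    · intro i _ hij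
      have h1 : (i : ℕ) ≠ j := fun h1 => hij (Subtype.ext h1)
      rw [if_neg (by rw [mem_singleton]; exact hij)]
      by_cases h2 : (i : ℕ) ∈ G
      · have h3 : i ∈ (univ.filter fun i : ↥(insert j P) => (i : ℕ) ∈ G) :=
          mem_filter.2 ⟨mem_univ _, h2⟩
        rw [if_pos h3]
      · have h3 : i ∉ (univ.filter fun i : ↥(insert j P) => (i : ℕ) ∈ G) :=
          fun h4 => h2 (mem_filter.1 h4).2
        rw [if_neg h3]
        simp [lab, h1, h2]
    · intro h1
      exact absurd (mem_univ _) h1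

/-! ## Sizes -/

/-- `log x` is small compared with exponentials of `E`. -/
theorem logx_small (A : ℕ) {ε : ℝ} (hε : 0 < ε) : ∃ E0 : ℕ, ∀ E z x y : ℕ, E0 ≤ E →
    SrA A E z x y →
    0 < Real.log x ∧ Real.log x ≤ Real.exp (ε * E) ∧ Real.log z ≤ Real.log x ∧
      (y : ℝ) ≤ Real.exp (ε * E) ^ A := by
  obtain ⟨n0, hn0⟩ := exists_nat_ge (1 / ε ^ 3)
  refine ⟨max 2 (n0 + 1), fun E z x y hE hSr => ?_⟩
  have hE2 : 2 ≤ E := (le_max_left _ _).trans hE
  have hEn : n0 + 1 ≤ E := (le_max_right _ _).trans hE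
  have hEr : (2 : ℝ) ≤ E := by exact_mod_cast hE2
  have hEnr : (n0 : ℝ) + 1 ≤ E := by exact_mod_cast hEn
  obtain ⟨h1, h2, h3, h4, h5, h6⟩ := hSr
  have hz1 : (1 : ℝ) < z := by
    have := Real.add_one_le_exp (E : ℝ)
    linarith
  have hz1' : 1 < z := by exact_mod_cast hz1
  have hzx : z ≤ x := (Nat.le_self_pow (by omega) z).trans h2
  have hlz : 0 < Real.log z := Real.log_pos hz1
  have hlzx : Real.log z ≤ Real.log x :=
    Real.log_le_log (by linarith only [hz1]) (by exact_mod_cast hzx)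
  have hlx : 0 < Real.log x := hlz.trans_le hlzx
  have ht : Real.log (Real.log x) ≤ ε * E := by
    by_contra hcon
    push Not at hcon
    have a0 : 0 < ε * E := by positivity
    have a1 : (ε * E) ^ 3 < Real.log (Real.log x) ^ 3 := by gcongr
    have a2 : (E : ℝ) < (ε * E) ^ 3 := by
      have b1 : 1 ≤ ε ^ 3 * n0 := by
        rw [div_le_iff₀ (by positivity)] at hn0
        linarith only [hn0]
      have b2 : 1 < ε ^ 3 * E := by
        have : 0 < ε ^ 3 := by positivity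
        nlinarith only [hEnr, b1]
      calc (E : ℝ) = 1 * E := (one_mul _).symm
        _ < ε ^ 3 * E * E := by
            apply mul_lt_mul_of_pos_right b2 (by linarith only [hEr])
        _ ≤ ε ^ 3 * E * E * E := by
            have : 0 ≤ ε ^ 3 * E * E := by positivity
            nlinarith only [h6, a1, b2, hEr, this]
        _ = (ε * E) ^ 3 := by ring
    linarith only [h6, a1, a2]
  have hx : Real.log x ≤ Real.exp (ε * E) := by
    calc Real.log x = Real.exp (Real.log (Real.log x)) := (Real.exp_log hlx).symm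
      _ ≤ Real.exp (ε * E) := Real.exp_le_exp.2 ht
  refine ⟨hlx, hx, hlzx, h5.trans ?_⟩
  gcongr

/-- The final error term. -/
theorem err_small {c : ℝ} (hc : 0 < c) (A K0 : ℕ) : ∃ E0 : ℕ, ∀ E z x y : ℕ, E0 ≤ E →
    SrA A E z x y → ∀ β : ℕ, β ≤ K0 →
    Real.exp (-(c * E)) * (5 * (y : ℝ) ^ 2) ≤ om y z / E * om y z ^ β := by
  obtain ⟨c₁, hc₁, hom⟩ := Pool.Agent.Helper74.PP.om_lower
  obtain ⟨ε, hε⟩ : ∃ ε : ℝ, ε = c / (2 * A + K0 + 4) := ⟨_, rfl⟩
  have hε0 : 0 < ε := by rw [hε]; positivity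
  have hεc : c = (2 * A + K0 + 4) * ε := by
    rw [hε]
    field_simp
  obtain ⟨c₂, hc₂⟩ : ∃ c₂ : ℝ, c₂ = max c₁ 1 := ⟨_, rfl⟩
  have hc21 : 1 ≤ c₂ := by rw [hc₂]; exact le_max_right _ _
  have hc2c : c₁ ≤ c₂ := by rw [hc₂]; exact le_max_left _ _
  obtain ⟨E1, hE1⟩ := logx_small A hε0
  have ht1 : ∀ᶠ E : ℕ in atTop, (E : ℝ) ≤ Real.exp (ε * E) := by
    have a1 : Tendsto (fun t : ℝ => Real.exp t / t ^ 1) atTop atTop :=
      Real.tendsto_exp_div_pow_atTop 1
    have a2 : Tendsto (fun E : ℕ => ε * (E : ℝ)) atTop atTop :=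
      Tendsto.const_mul_atTop hε0 tendsto_natCast_atTop_atTop
    have a3 := (a1.comp a2).eventually_ge_atTop (1 / ε)
    filter_upwards [a3, eventually_gt_atTop 0] with E h1 h2
    have h2' : (0 : ℝ) < E := by exact_mod_cast h2
    simp only [Function.comp, pow_one] at h1
    rw [div_le_div_iff₀ hε0 (by positivity)] at h1
    have : 1 * (ε * (E : ℝ)) = ε * E := one_mul _
    nlinarith only [h1, hε0]
  have ht2 : ∀ᶠ E : ℕ in atTop, 5 * c₂ ^ (K0 + 1) ≤ Real.exp (ε * E) := by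
    have a2 : Tendsto (fun E : ℕ => ε * (E : ℝ)) atTop atTop :=
      Tendsto.const_mul_atTop hε0 tendsto_natCast_atTop_atTop
    exact (Real.tendsto_exp_atTop.comp a2).eventually_ge_atTop _
  obtain ⟨E2, hE2⟩ := eventually_atTop.1 (ht1.and (ht2.and (eventually_ge_atTop 2)))
  refine ⟨max E1 E2, fun E z x y hE hSr β hβ => ?_⟩
  obtain ⟨g1, g2, g3⟩ := hE2 E ((le_max_right _ _).trans hE)
  obtain ⟨k1, k2, k3, k4⟩ := hE1 E z x y ((le_max_left _ _).trans hE) hSr
  have hEr : (0 : ℝ) < E := by exact_mod_cast (by omega : 0 < E)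
  have hz2 : 2 ≤ z := by
    have h1 : Real.exp E ≤ z := hSr.1
    have h2 : (E : ℝ) + 1 ≤ Real.exp E := Real.add_one_le_exp _
    have h4 : (2 : ℝ) ≤ E := by exact_mod_cast g3
    have h3 : (2 : ℝ) ≤ z := by linarith only [h1, h2, h4]
    exact_mod_cast h3
  have hlz : 0 < Real.log z := Real.log_pos (by exact_mod_cast (by omega : 1 < z))
  obtain ⟨X, hX⟩ : ∃ X : ℝ, X = Real.exp (ε * E) := ⟨_, rfl⟩
  rw [← hX] at k2 k4 g1 g2
  have hX0 : 0 < X := by rw [hX]; exact Real.exp_pos _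
  have hX1 : 1 ≤ X := by
    rw [hX]
    exact Real.one_le_exp (by positivity)
  have h1 : 1 / (c₂ * X) ≤ om y z := by
    refine le_trans ?_ (hom y z hz2).1
    apply one_div_le_one_div_of_le (by positivity)
    calc c₁ * Real.log z ≤ c₂ * Real.log z := mul_le_mul_of_nonneg_right hc2c hlz.le
      _ ≤ c₂ * X := mul_le_mul_of_nonneg_left (k3.trans k2) (by linarith only [hc21])
  have h0 : 0 < 1 / (c₂ * X) := by positivity
  have h2 : (1 / (c₂ * X)) ^ (K0 + 1) / X ≤ om y z / E * om y z ^ β := by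
    have e1 : om y z / E * om y z ^ β = om y z ^ (β + 1) / E := by
      rw [pow_succ]; ring
    rw [e1]
    have hle1 : 1 / (c₂ * X) ≤ 1 := by
      rw [div_le_one (by positivity)]
      nlinarith only [hX1, hc21, g1]
    apply div_le_div₀ (pow_nonneg (h0.le.trans h1) _) _ hEr g1
    calc (1 / (c₂ * X)) ^ (K0 + 1) ≤ (1 / (c₂ * X)) ^ (β + 1) :=
          pow_le_pow_of_le_one h0.le hle1 (by omega)
      _ ≤ om y z ^ (β + 1) := pow_le_pow_left₀ h0.le h1 _
  refine le_trans ?_ h2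
  have e1 : Real.exp (-(c * E)) = 1 / X ^ (2 * A + K0 + 4) := by
    rw [hX, ← Real.exp_nat_mul, one_div, ← Real.exp_neg]
    congr 1
    rw [hεc]; push_cast; ring
  rw [e1]
  have h3 : (y : ℝ) ^ 2 ≤ X ^ (2 * A) := by
    calc (y : ℝ) ^ 2 ≤ (X ^ A) ^ 2 := by gcongr
      _ = X ^ (2 * A) := by rw [← pow_mul]; ring_nf
  have h4 : 0 < c₂ ^ (K0 + 1) := by positivity
  calc 1 / X ^ (2 * A + K0 + 4) * (5 * (y : ℝ) ^ 2) ≤
      1 / X ^ (2 * A + K0 + 4) * (5 * X ^ (2 * A)) := by gcongr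
    _ = (5 * c₂ ^ (K0 + 1)) / (c₂ ^ (K0 + 1) * X ^ (K0 + 1) * X * (X * X)) := by
        have e2 : X ^ (2 * A + K0 + 4) = X ^ (2 * A) * X ^ (K0 + 1) * X * (X * X) := by ring
        rw [e2]
        field_simp
    _ ≤ (X * X) / (c₂ ^ (K0 + 1) * X ^ (K0 + 1) * X * (X * X)) := by
        have h5 : 5 * c₂ ^ (K0 + 1) ≤ X * X := by nlinarith only [g2, hX1, g1]
        exact div_le_div_of_nonneg_right h5 (by positivity)
    _ = (1 / (c₂ * X)) ^ (K0 + 1) / X := by
        rw [div_pow, one_pow, mul_pow]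
        field_simp

/-! ## The bracket -/

theorem bracket (K0 : ℕ) {y z N β : ℕ} (hβ : β ≤ K0) (hy : 2 * (K0 + 3) ≤ y) (hN : N ≤ y)
    (ho0 : 0 ≤ om y z) (ho1 : om y z ≤ 1) :
    (N : ℝ) * ((N : ℝ) - 1) * gg y z (3 + β) + (1 - 2 * (N * om y z)) * N * gg y z (2 + β) +
      (N * om y z) ^ 2 * gg y z (1 + β) ≤
      (1 + 4 * ((K0 : ℝ) + 2) ^ 2) * om y z ^ β * (om y z * (N * om y z)) := by
  obtain ⟨a1, a2, a3⟩ := Pool.Agent.Helper74.PP.om_pow y z (2 + β) (by omega) (by omega)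
  obtain ⟨b1, b2, b3⟩ := Pool.Agent.Helper74.PP.om_pow y z (3 + β) (by omega) (by omega)
  obtain ⟨d1, d2, d3⟩ := Pool.Agent.Helper74.PP.om_pow y z (1 + β) (by omega) (by omega)
  have g1 : gg y z (1 + β) = ∏ p ∈ pr y z, (1 - ((1 + β : ℕ) : ℝ) / p) := rfl
  have g2 : gg y z (2 + β) = ∏ p ∈ pr y z, (1 - ((2 + β : ℕ) : ℝ) / p) := rfl
  have g3 : gg y z (3 + β) = ∏ p ∈ pr y z, (1 - ((3 + β : ℕ) : ℝ) / p) := rfl
  rw [← g1] at d2
  rw [← g2] at a1 a2 a3
  rw [← g3] at b2 b3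
  obtain ⟨o, ho⟩ : ∃ o : ℝ, o = om y z := ⟨_, rfl⟩
  rw [← ho] at ho0 ho1 a1 a2 b2 d2 ⊢
  have hyr : (6 : ℝ) ≤ y := by exact_mod_cast (by omega : 6 ≤ y)
  have hNr : (N : ℝ) ≤ y := by exact_mod_cast hN
  have hN0 : (0 : ℝ) ≤ N := Nat.cast_nonneg N
  have hβr : (β : ℝ) ≤ K0 := by exact_mod_cast hβ
  have hβ0 : (0 : ℝ) ≤ β := Nat.cast_nonneg β
  obtain ⟨κ, hκ⟩ : ∃ κ : ℝ, κ = 2 * ((K0 : ℝ) + 2) ^ 2 := ⟨_, rfl⟩
  have hκ0 : 0 ≤ κ := by rw [hκ]; positivity
  have a4 : o ^ (2 + β) - κ / y * o ^ (2 + β) ≤ gg y z (2 + β) := by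
    have h1 := (abs_le.1 a1).1
    have h2 : 2 * (((2 + β : ℕ) : ℝ)) ^ 2 / y * o ^ (2 + β) ≤ κ / y * o ^ (2 + β) := by
      rw [hκ]
      have h3 : (((2 + β : ℕ) : ℝ)) ≤ (K0 : ℝ) + 2 := by push_cast; linarith only [hβr]
      gcongr
    linarith only [h1, h2]
  have c1 : (N : ℝ) * ((N : ℝ) - 1) * gg y z (3 + β) ≤ (N : ℝ) * N * o ^ (3 + β) := by
    have : (N : ℝ) * ((N : ℝ) - 1) * gg y z (3 + β) ≤ (N : ℝ) * N * gg y z (3 + β) := by
      apply mul_le_mul_of_nonneg_right _ b3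
      nlinarith
    exact this.trans (mul_le_mul_of_nonneg_left b2 (by positivity))
  have c2 : (N : ℝ) * gg y z (2 + β) ≤ N * o ^ (2 + β) := mul_le_mul_of_nonneg_left a2 hN0
  have c3 : 2 * (N * o) * N * (o ^ (2 + β) - κ / y * o ^ (2 + β)) ≤
      2 * (N * o) * N * gg y z (2 + β) :=
    mul_le_mul_of_nonneg_left a4 (by positivity)
  have c0 : ((N : ℝ) * o) ^ 2 * gg y z (1 + β) ≤ ((N : ℝ) * o) ^ 2 * o ^ (1 + β) :=
    mul_le_mul_of_nonneg_left d2 (sq_nonneg _)
  have c4 : (N : ℝ) * N / y ≤ N := by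
    rw [div_le_iff₀ (by linarith only [hyr])]
    exact mul_le_mul_of_nonneg_left hNr hN0
  have hoβ : 0 ≤ o ^ β := pow_nonneg ho0 β
  have c5 : o ^ β * (o ^ 3 * ((N : ℝ) * N / y)) ≤ o ^ β * (o ^ 2 * N) := by
    apply mul_le_mul_of_nonneg_left _ hoβ
    calc o ^ 3 * ((N : ℝ) * N / y) = o ^ 2 * (o * ((N : ℝ) * N / y)) := by ring
      _ ≤ o ^ 2 * (1 * N) := by
          apply mul_le_mul_of_nonneg_left _ (by positivity)
          exact mul_le_mul ho1 c4 (by positivity) zero_le_one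
      _ = o ^ 2 * N := by ring
  have e1 : 2 * (N * o) * N * (o ^ (2 + β) - κ / y * o ^ (2 + β)) =
      2 * ((N : ℝ) * N * o ^ (3 + β)) - 2 * κ * (o ^ β * (o ^ 3 * ((N : ℝ) * N / y))) := by
    rw [pow_add, pow_add]
    field_simp
  rw [e1] at c3
  have e2 : (1 - 2 * (N * o)) * N * gg y z (2 + β) =
      N * gg y z (2 + β) - 2 * (N * o) * N * gg y z (2 + β) := by
    ring
  have e3 : ((N : ℝ) * o) ^ 2 * o ^ (1 + β) = (N : ℝ) * N * o ^ (3 + β) := by
    rw [pow_add, pow_add]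
    ring
  have e4 : (1 + 4 * ((K0 : ℝ) + 2) ^ 2) * o ^ β * (o * (N * o)) =
      N * o ^ (2 + β) + 2 * κ * (o ^ β * (o ^ 2 * N)) := by
    rw [hκ, pow_add]
    ring
  rw [e2, e4]
  rw [e3] at c0
  have c6 := mul_le_mul_of_nonneg_left c5 (by positivity : 0 ≤ 2 * κ)
  linarith only [c1, c2, c3, c0, c6]

/-! ## The theorem -/

/-- PACKET COB -/
theorem cob (h : StmtTGA) : StmtCOB := by
  intro A K0
  obtain ⟨c, hc, E1, hkey⟩ := key h A K0
  obtain ⟨E2, herr⟩ := err_small hc A K0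
  obtain ⟨cm, Cm, hcm, hCm, hma⟩ := Pool.Agent.Helper24.PP.ma
  obtain ⟨κ, hκ⟩ : ∃ κ : ℝ, κ = 1 + 4 * ((K0 : ℝ) + 2) ^ 2 := ⟨_, rfl⟩
  have hκ0 : 0 < κ := by rw [hκ]; positivity
  refine ⟨κ * (64 / cm) + 1, by positivity, max (max E1 E2) (256 + 2 * (K0 + 3)), ?_⟩
  intro E z x y hE hSr b hb P B hP hB hPB hBK hPo j hj hjP hjB
  have hE1 : E1 ≤ E := ((le_max_left _ _).trans (le_max_left _ _)).trans hE
  have hE2 : E2 ≤ E := ((le_max_right _ _).trans (le_max_left _ _)).trans hE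
  have hE256' : 256 + 2 * (K0 + 3) ≤ E := (le_max_right _ _).trans hE
  have hE256 : 256 ≤ E := by omega
  have hEr : (256 : ℝ) ≤ E := by exact_mod_cast hE256
  have hEK : (K0 : ℝ) + 1 ≤ E := by exact_mod_cast (by omega : K0 + 1 ≤ E)
  have hzE : Real.exp E ≤ z := hSr.1
  have hz32 : 256 ≤ z := by
    have h2 : (E : ℝ) + 1 ≤ Real.exp E := Real.add_one_le_exp _
    have h3 : (256 : ℝ) ≤ z := by linarith only [hEr, hzE, h2]
    exact_mod_cast h3
  have hzx : z ^ E ≤ x := hSr.2.1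
  have hyE : E ≤ y := by
    have h1 : Real.log x ≤ y := hSr.2.2.2.1
    have h2 : (E : ℝ) ≤ Real.log z := by
      rw [Real.le_log_iff_exp_le (by exact_mod_cast (by omega : 0 < z))]
      exact hzE
    have h3 : Real.log z ≤ Real.log x :=
      Real.log_le_log (by exact_mod_cast (by omega : 0 < z))
        (by exact_mod_cast (Nat.le_self_pow (by omega) z).trans hzx)
    have h4 : (E : ℝ) ≤ y := by linarith only [h1, h2, h3]
    exact_mod_cast h4
  have ho1 : om y z ≤ 1 := by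
    obtain ⟨_, _, hom⟩ := Pool.Agent.Helper74.PP.om_lower
    exact (hom y z (by omega)).2
  have ho0 : 0 ≤ om y z := by
    obtain ⟨c₁, hc₁, hom⟩ := Pool.Agent.Helper74.PP.om_lower
    have hlz : 0 < Real.log z := Real.log_pos (by exact_mod_cast (by omega : 1 < z))
    exact le_trans (by positivity) (hom y z (by omega)).1
  set V := VM (E / 32) z with hV
  have hV0 : 0 < V := VM_pos (by omega) (by omega)
  have hVE : cm * (E / 64) ≤ V := by
    have h1 := (hma z (E / 32) (by omega) (by omega)).1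
    refine le_trans ?_ h1
    apply mul_le_mul_of_nonneg_left _ hcm.le
    rw [div_le_iff₀ (by norm_num)]
    have h2 : E ≤ (E / 32) * 64 := by omega
    exact_mod_cast h2
  set XX := XI (x / 32) x (QQ x) with hXX
  have hXX0 : 0 ≤ XX := by
    rw [hXX, XI]; positivity
  set NN := NI (x / 32) x (QQ x) b with hNN
  obtain ⟨β, hβ⟩ : ∃ β : ℕ, β = B.card := ⟨_, rfl⟩
  have hβK : β ≤ K0 := by rw [hβ]; exact hBK
  rw [← hβ]
  set f : ℕ → ℝ := fun n => ff (E / 32) z y (n + j) ^ 2 * ∏ i ∈ B, rg y z (n + i) with hf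
  set δ := Real.exp (-(c * E)) * XX with hδ
  have hδ0 : 0 ≤ δ := by positivity
  set N := P.card with hN
  have hNy : N ≤ y := by
    have := card_le_card hP
    simpa using this
  have hrg0 : ∀ m, 0 ≤ rg y z m := fun m => by unfold rg; split_ifs <;> norm_num
  have hf0 : ∀ n, 0 ≤ f n := fun n =>
    mul_nonneg (sq_nonneg _) (prod_nonneg fun i _ => hrg0 _)
  -- primes
  have hprime : ∀ n ∈ NN, (n + j).Prime → (∀ i ∈ B, Rg y z (n + i)) → f n = 1 := by
    intro n hn hp hBn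
    have hn1 : x / 32 < n := by
      rw [hNN, NI, mem_filter, mem_Ioc] at hn
      exact hn.1.1
    have hj1 : 1 ≤ j := (mem_Icc.1 hj).1
    have hzn : z ^ (E / 32) ≤ n := by
      by_contra hcon
      push Not at hcon
      have h1 : z ^ (E / 32) * 32 ≤ x := by
        calc z ^ (E / 32) * 32 ≤ z ^ (E / 32) * z := Nat.mul_le_mul_left _ (by omega)
          _ = z ^ (E / 32 + 1) := (pow_succ _ _).symm
          _ ≤ z ^ E := Nat.pow_le_pow_right (by omega) (by omega)
          _ ≤ x := hzx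
      omega
    have h1 : ff (E / 32) z y (n + j) = 1 := by
      rw [← sum_ff (M := E / 32) (z := z) (by omega) (by omega), ff]
      refine sum_congr rfl fun s hs => ?_
      rw [Pool.Agent.Helper59.RR.vv_one (by omega) (by omega) hp hzn (by omega) hs, mul_one]
    have h2 : ∏ i ∈ B, rg y z (n + i) = 1 := by
      refine prod_eq_one fun i hi => ?_
      unfold rg
      rw [if_pos (hBn i hi)]
    simp only [hf, h1, h2, one_pow, mul_one]
  -- the sum
  have hS : ∀ n, (((P.filter (fun h => Rg y z (n + h))).card : ℝ)) = ∑ i ∈ P, rg y z (n + i) := by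
    intro n
    rw [card_filter]
    push_cast
    rfl
  set μ : ℝ := N * om y z with hμ
  have hμ0 : 0 ≤ μ := by positivity
  set MM : Finset ℕ → ℝ := fun G => ∑ n ∈ NN, f n * ∏ i ∈ G, rg y z (n + i) with hMM
  have hexp : ∑ n ∈ NN, f n * ((((P.filter (fun h => Rg y z (n + h))).card : ℝ)) - μ) ^ 2 =
      ∑ i ∈ P, ∑ i' ∈ P.erase i, MM {i, i'} + (1 - 2 * μ) * ∑ i ∈ P, MM {i} + μ ^ 2 * MM ∅ := by
    have e1 : ∀ n, f n * ((((P.filter (fun h => Rg y z (n + h))).card : ℝ)) - μ) ^ 2 =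
        ∑ i ∈ P, ∑ i' ∈ P.erase i, f n * ∏ k ∈ {i, i'}, rg y z (n + k) +
        (1 - 2 * μ) * ∑ i ∈ P, f n * ∏ k ∈ {i}, rg y z (n + k) +
          μ ^ 2 * (f n * ∏ k ∈ (∅ : Finset ℕ), rg y z (n + k)) := by
      intro n
      rw [hS n]
      have e2 : ∀ i ∈ P, ∑ i' ∈ P.erase i, f n * ∏ k ∈ {i, i'}, rg y z (n + k) =
          f n * (rg y z (n + i) * ∑ i' ∈ P, rg y z (n + i')) - f n * rg y z (n + i) := by
        intro i hi
        have e3 : ∀ i' ∈ P.erase i, f n * ∏ k ∈ {i, i'}, rg y z (n + k) =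
            f n * rg y z (n + i) * rg y z (n + i') := by
          intro i' hi'
          rw [prod_pair (ne_of_mem_erase hi').symm]
          ring
        rw [sum_congr rfl e3, ← mul_sum, ← add_sum_erase P _ hi]
        have e4 : rg y z (n + i) * rg y z (n + i) = rg y z (n + i) := by
          unfold rg
          split_ifs <;> simp
        rw [mul_add, e4]
        ring
      rw [sum_congr rfl e2]
      simp only [prod_singleton, prod_empty, sum_sub_distrib, ← mul_sum]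
      rw [← sum_mul]
      ring
    rw [sum_congr rfl fun n _ => e1 n, sum_add_distrib, sum_add_distrib, ← mul_sum, ← mul_sum]
    congr 1
    congr 1
    · rw [sum_comm]
      refine sum_congr rfl fun i _ => ?_
      rw [sum_comm]
    · congr 1
      rw [sum_comm]
  have hPBy : P ∪ B ⊆ Icc 1 y := union_subset hP hB
  have hjPB : j ∉ P ∪ B := by
    rw [mem_union]
    tauto
  have hPBo : ((P ∪ B).card : ℝ) * om y z + 1 ≤ (E : ℝ) ^ 2 := by
    have h1 : ((P ∪ B).card : ℝ) ≤ N + K0 := by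
      have h2 := card_union_le P B
      exact_mod_cast h2.trans (Nat.add_le_add_left hBK _)
    have h2 : ((P ∪ B).card : ℝ) * om y z ≤ N * om y z + K0 := by
      calc ((P ∪ B).card : ℝ) * om y z ≤ (N + K0) * om y z := mul_le_mul_of_nonneg_right h1 ho0
        _ = N * om y z + K0 * om y z := by ring
        _ ≤ N * om y z + K0 * 1 :=
            add_le_add le_rfl (mul_le_mul_of_nonneg_left ho1 (Nat.cast_nonneg _))
        _ = _ := by ring
    nlinarith only [hEr, hEK, hPo, h2]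
  have hk : ∀ G ⊆ P, G.card ≤ 2 → |MM G - XX * (gg y z (G.card + 1 + β) / V)| ≤ δ := by
    intro G hG hG2
    have hdis : Disjoint G B := disjoint_of_subset_left hG hPB
    have h1 := hkey E z x y hE1 hSr b hb (P ∪ B) hPBy hPBo j hj hjPB (G ∪ B)
      (union_subset_union_left hG) (by
        rw [card_union_of_disjoint hdis]
        omega)
    rw [card_union_of_disjoint hdis, ← hβ] at h1
    have e1 : MM G = ∑ n ∈ NN, ff (E / 32) z y (n + j) ^ 2 * ∏ i ∈ G ∪ B, rg y z (n + i) := by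
      simp only [hMM, hf]
      refine sum_congr rfl fun n _ => ?_
      rw [prod_union hdis]
      ring
    have e2 : G.card + 1 + β = G.card + β + 1 := by ring
    rw [e1, e2]
    exact h1
  have hm2 : ∀ i ∈ P, ∀ i' ∈ P.erase i, MM {i, i'} ≤ XX * (gg y z (3 + β) / V) + δ := by
    intro i hi i' hi'
    have hne : i ≠ i' := (ne_of_mem_erase hi').symm
    have h1 := hk {i, i'} (by
      intro k hk
      rw [mem_insert, mem_singleton] at hk
      rcases hk with rfl | rfl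
      · exact hi
      · exact mem_of_mem_erase hi') (by rw [card_pair hne])
    rw [card_pair hne] at h1
    have := (abs_le.1 h1).2
    have e : 2 + 1 + β = 3 + β := by ring
    rw [e] at this
    linarith only [this]
  have hm1 : ∀ i ∈ P, |MM {i} - XX * (gg y z (2 + β) / V)| ≤ δ := by
    intro i hi
    have h1 := hk {i} (singleton_subset_iff.2 hi) (by simp)
    rwa [card_singleton] at h1
  have hm0 : MM ∅ ≤ XX * (gg y z (1 + β) / V) + δ := by
    have h1 := hk ∅ (empty_subset _) (by simp)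
    rw [card_empty] at h1
    have := (abs_le.1 h1).2
    simp only [zero_add] at this
    linarith only [this]
  have hN0 : (0 : ℝ) ≤ N := Nat.cast_nonneg N
  have hcard : ∀ i ∈ P, ((P.erase i).card : ℝ) = N - 1 := by
    intro i hi
    rw [card_erase_of_mem hi]
    have : 1 ≤ P.card := card_pos.2 ⟨i, hi⟩
    push_cast [Nat.cast_sub this]
    rfl
  have t1 : ∑ i ∈ P, ∑ i' ∈ P.erase i, MM {i, i'} ≤
      N * ((N - 1) * (XX * (gg y z (3 + β) / V) + δ)) := by
    calc ∑ i ∈ P, ∑ i' ∈ P.erase i, MM {i, i'} ≤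
        ∑ i ∈ P, ((N : ℝ) - 1) * (XX * (gg y z (3 + β) / V) + δ) := by
          refine sum_le_sum fun i hi => ?_
          refine (sum_le_sum (hm2 i hi)).trans (le_of_eq ?_)
          rw [sum_const, nsmul_eq_mul, hcard i hi]
      _ = _ := by rw [sum_const, nsmul_eq_mul]
  have t2 : |∑ i ∈ P, MM {i} - N * (XX * (gg y z (2 + β) / V))| ≤ N * δ := by
    have e : ∑ i ∈ P, MM {i} - N * (XX * (gg y z (2 + β) / V)) =
        ∑ i ∈ P, (MM {i} - XX * (gg y z (2 + β) / V)) := by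
      rw [sum_sub_distrib, sum_const, nsmul_eq_mul]
    rw [e]
    refine (abs_sum_le_sum_abs _ _).trans ((sum_le_sum hm1).trans (le_of_eq ?_))
    rw [sum_const, nsmul_eq_mul]
  have t3 : (1 - 2 * μ) * ∑ i ∈ P, MM {i} ≤
      (1 - 2 * μ) * (N * (XX * (gg y z (2 + β) / V))) + (1 + 2 * μ) * (N * δ) := by
    have h1 : (1 - 2 * μ) * (∑ i ∈ P, MM {i} - N * (XX * (gg y z (2 + β) / V))) ≤
        |1 - 2 * μ| * (N * δ) := by
      refine (le_abs_self _).trans ?_
      rw [abs_mul]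
      exact mul_le_mul_of_nonneg_left t2 (abs_nonneg _)
    have h2 : |1 - 2 * μ| ≤ 1 + 2 * μ := by
      rw [abs_le]; constructor <;> linarith only [hμ0]
    have h3 : |1 - 2 * μ| * (N * δ) ≤ (1 + 2 * μ) * (N * δ) :=
      mul_le_mul_of_nonneg_right h2 (by positivity)
    linarith only [h1, h3]
  have t4 : μ ^ 2 * MM ∅ ≤ μ ^ 2 * (XX * (gg y z (1 + β) / V) + δ) :=
    mul_le_mul_of_nonneg_left hm0 (by positivity)
  have hmain : ∑ n ∈ NN.filter (fun n => (n + j).Prime ∧ ∀ i ∈ B, Rg y z (n + i)),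
      (((P.filter (fun h => Rg y z (n + h))).card : ℝ) - μ) ^ 2 ≤
      ∑ n ∈ NN, f n * ((((P.filter (fun h => Rg y z (n + h))).card : ℝ)) - μ) ^ 2 := by
    calc ∑ n ∈ NN.filter (fun n => (n + j).Prime ∧ ∀ i ∈ B, Rg y z (n + i)),
        (((P.filter (fun h => Rg y z (n + h))).card : ℝ) - μ) ^ 2 =
        ∑ n ∈ NN.filter (fun n => (n + j).Prime ∧ ∀ i ∈ B, Rg y z (n + i)),
          f n * (((P.filter (fun h => Rg y z (n + h))).card : ℝ) - μ) ^ 2 := by
          refine sum_congr rfl fun n hn => ?_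
          rw [mem_filter] at hn
          rw [hprime n hn.1 hn.2.1 hn.2.2, one_mul]
      _ ≤ _ := by
          refine sum_le_sum_of_subset_of_nonneg (filter_subset _ _) fun n _ _ => ?_
          exact mul_nonneg (hf0 n) (sq_nonneg _)
  refine hmain.trans ?_
  rw [hexp]
  have hbr := bracket K0 (z := z) hβK (by omega : 2 * (K0 + 3) ≤ y) hNy ho0 ho1
  rw [← hμ, ← hκ] at hbr
  have hAV : 0 ≤ XX / V := by positivity
  have hbr2 := mul_le_mul_of_nonneg_left hbr hAV
  have hoβ : 0 ≤ om y z ^ β := pow_nonneg ho0 β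
  have hδb : N * ((N - 1) * δ) + (1 + 2 * μ) * (N * δ) + μ ^ 2 * δ ≤
      XX * (om y z / E) * om y z ^ β := by
    have h1 : μ ≤ N := by
      rw [hμ]; exact mul_le_of_le_one_right hN0 ho1
    have h2 : (N : ℝ) ≤ y := by exact_mod_cast hNy
    have h3 : N * ((N - 1) * δ) + (1 + 2 * μ) * (N * δ) + μ ^ 2 * δ =
        δ * ((N : ℝ) * N + 2 * μ * N + μ ^ 2) := by ring
    have h4 : (N : ℝ) * N + 2 * μ * N + μ ^ 2 ≤ 5 * (y : ℝ) ^ 2 := by nlinarith only [ho1, ho0, h2]
    have h5 := herr E z x y hE2 hSr β hβK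
    rw [h3]
    calc δ * ((N : ℝ) * N + 2 * μ * N + μ ^ 2) ≤ δ * (5 * (y : ℝ) ^ 2) :=
          mul_le_mul_of_nonneg_left h4 hδ0
      _ = XX * (Real.exp (-(c * E)) * (5 * (y : ℝ) ^ 2)) := by rw [hδ]; ring
      _ ≤ XX * (om y z / E * om y z ^ β) := mul_le_mul_of_nonneg_left h5 hXX0
      _ = _ := by ring
  have hmainb : XX / V * (κ * om y z ^ β * (om y z * μ)) ≤
      κ * (64 / cm) * (XX * (om y z / E) * om y z ^ β) * μ := by
    have h1 : XX / V ≤ XX / (cm * (E / 64)) := by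
      apply div_le_div_of_nonneg_left hXX0 (by positivity) hVE
    calc XX / V * (κ * om y z ^ β * (om y z * μ)) ≤
          XX / (cm * (E / 64)) * (κ * om y z ^ β * (om y z * μ)) :=
          mul_le_mul_of_nonneg_right h1 (by positivity)
      _ = _ := by field_simp
  have hfin : κ * (64 / cm) * (XX * (om y z / E) * om y z ^ β) * μ +
      XX * (om y z / E) * om y z ^ β ≤
      (κ * (64 / cm) + 1) * (XX * (om y z / E) * om y z ^ β) * (μ + 1) := by
    have h1 : 0 ≤ XX * (om y z / E) * om y z ^ β := by positivity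
    have h2 : 0 ≤ κ * (64 / cm) := by positivity
    nlinarith only [h1, hμ0, h2, mul_nonneg h1 hμ0, mul_nonneg h2 h1]
  have e5 : XX / V * (N * (N - 1) * gg y z (3 + β) + (1 - 2 * μ) * N * gg y z (2 + β) +
      μ ^ 2 * gg y z (1 + β)) =
      N * ((N - 1) * (XX * (gg y z (3 + β) / V))) + (1 - 2 * μ) * (N * (XX * (gg y z (2 + β) / V))) +
        μ ^ 2 * (XX * (gg y z (1 + β) / V)) := by ring
  rw [e5] at hbr2
  have e6 : N * ((N - 1) * (XX * (gg y z (3 + β) / V) + δ)) =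
      N * ((N - 1) * (XX * (gg y z (3 + β) / V))) + N * ((N - 1) * δ) := by ring
  have e7 : μ ^ 2 * (XX * (gg y z (1 + β) / V) + δ) =
      μ ^ 2 * (XX * (gg y z (1 + β) / V)) + μ ^ 2 * δ := by ring
  rw [e6] at t1
  rw [e7] at t4
  linarith only [t1, t3, t4, hbr2, hδb, hmainb, hfin]

end Pool.Agent.Helper8.MC
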